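import Mathlib
import Pool.Agent.H13R3.EM.Defs
import Pool.Agent.W406.PX.Main

/-!
# MP_a10c55_nt, Q1: products of two error terms of the Selberg class need not take large negative values

`Sel` (module `Pool.Agent.H13R3.EM.Defs`) is the structure of an element of the Selberg class with all its data,
`Sel.deg` its degree and `Sel.err` its error term `E_f(x)`.  We prove that there are an integer `q ≥ 8` and two entire
elements `F₁`, `F₂` of the Selberg class with real coefficients, of degrees `8 q` and `16 q`, such that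
`E_{f₁}(x) E_{f₂}(x) ≥ -C` for all real `x`.  Hence Q1 is false.
-/

set_option autoImplicit false

namespace Pool.Agent.Results.MP_a10c55_nt.ProductBounded

open Pool.Agent.H13R3.EM (Sel)

/-- Q1 of the problem: for all `k ≥ 2`, integers `2 ≤ d_1 < ... < d_k` and elements `F_j` of the Selberg class with
real coefficients and degree `d_j` there are `δ` in `(0, 1)` and `c > 0` such that for all large `T` the product
`P(x) = ∏ E_{f_j}(x)` takes on `[T, T + T^δ]` a value `> c T^σ` and a value `< -c T^σ`, `σ = ∑ (d_j - 1) / (2 d_j)`. -/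
def Q1 : Prop := ∀ (k : ℕ) (d : Fin k → ℕ) (F : Fin k → Sel), 2 ≤ k → StrictMono d → (∀ j, 2 ≤ d j) →
  (∀ j, (F j).deg = (d j : ℝ)) → (∀ j, ∀ n : ℕ, 1 ≤ n → ((F j).a n).im = 0) →
  ∃ δ c T₀ : ℝ, 0 < δ ∧ δ < 1 ∧ 0 < c ∧ ∀ T : ℝ, T₀ ≤ T →
    ∃ x₁ ∈ Set.Icc T (T + T ^ δ), ∃ x₂ ∈ Set.Icc T (T + T ^ δ),
      c * T ^ (∑ j, ((d j : ℝ) - 1) / (2 * (d j : ℝ))) < (∏ j, (F j).err x₁).re ∧
      (∏ j, (F j).err x₂).re < -(c * T ^ (∑ j, ((d j : ℝ) - 1) / (2 * (d j : ℝ))))

/-- There are two entire elements of the Selberg class with real coefficients, of degrees `8 q` and `16 q`, such that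
the product of their (real) error terms is bounded below by a constant on the whole real line; and Q1 is false. -/
theorem result : (∃ (q : ℕ) (F₁ F₂ : Sel), 8 ≤ q ∧ F₁.deg = ((8 * q : ℕ) : ℝ) ∧ F₂.deg = ((16 * q : ℕ) : ℝ) ∧
    F₁.m0 = 0 ∧ F₂.m0 = 0 ∧ (∀ n : ℕ, 1 ≤ n → (F₁.a n).im = 0 ∧ (F₂.a n).im = 0) ∧
    (∀ x : ℝ, (F₁.err x).im = 0 ∧ (F₂.err x).im = 0) ∧
    ∃ C : ℝ, ∀ x : ℝ, -C ≤ (F₁.err x).re * (F₂.err x).re) ∧ ¬ Q1 :=
  ⟨Pool.Agent.W406.PX.strong, Pool.Agent.W406.PX.End.not_of_strong Pool.Agent.W406.PX.strong⟩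

end Pool.Agent.Results.MP_a10c55_nt.ProductBounded
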